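import Mathlib

set_option autoImplicit false

namespace Pool.Agent.Results.MP_35fef3_co.Counter

open Set

/-- The number of independent sets of size `i`. -/
noncomputable def fnum {α : Type} (M : Matroid α) (i : ℕ) : ℕ :=
  {I : Set α | M.Indep I ∧ I.ncard = i}.ncard

/-- The top entry `h_d` of the `h`-vector of the independence complex of a rank-`d` matroid. -/
noncomputable def hTop {α : Type} (M : Matroid α) (d : ℕ) : ℤ :=
  ∑ i ∈ Finset.range (d + 1), (-1) ^ (d - i) * (fnum M i : ℤ)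

/-- The direct sum of two copies of `U_{1,3}`. -/
noncomputable def M0 : Matroid (Fin 3 ⊕ Fin 3) :=
  Matroid.ofIsBaseOfFinite (E := univ) finite_univ
    (fun B => ∃ a b : Fin 3, B = {Sum.inl a, Sum.inr b}) ⟨_, 0, 0, rfl⟩
    (by
      rintro _ _ ⟨a, b, rfl⟩ ⟨c, d, rfl⟩ x ⟨hx, hx'⟩
      simp only [mem_insert_iff, mem_singleton_iff, not_or] at hx hx'
      rcases hx with rfl | rfl
      · have hac : a ≠ c := fun h => hx'.1 (by rw [h])
        refine ⟨Sum.inl c, ⟨by simp, by simp [hac.symm]⟩, c, b, ?_⟩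
        ext y; simp only [mem_insert_iff, mem_sdiff, mem_singleton_iff]
        constructor
        · rintro (h | ⟨h | h, h'⟩)
          · exact Or.inl h
          · exact absurd h h'
          · exact Or.inr h
        · rintro (h | h)
          · exact Or.inl h
          · exact Or.inr ⟨Or.inr h, by simp [h]⟩
      · have hbd : b ≠ d := fun h => hx'.2 (by rw [h])
        refine ⟨Sum.inr d, ⟨by simp, by simp [hbd.symm]⟩, a, d, ?_⟩
        ext y; simp only [mem_insert_iff, mem_sdiff, mem_singleton_iff]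
        constructor
        · rintro (h | ⟨h | h, h'⟩)
          · exact Or.inr h
          · exact Or.inl h
          · exact absurd h h'
        · rintro (h | h)
          · exact Or.inr ⟨Or.inl h, by simp [h]⟩
          · exact Or.inl h)
    (fun _ _ => subset_univ _)

theorem M0_base (B : Set (Fin 3 ⊕ Fin 3)) :
    M0.IsBase B ↔ ∃ a b : Fin 3, B = {Sum.inl a, Sum.inr b} := by
  simp [M0]

theorem hTop_eq (N : Matroid (Fin 3 ⊕ Fin 3)) (hN : ∀ B, N.IsBase B → M0.IsBase B) :
    hTop N 2 = (({a : Fin 3 | N.Indep {Sum.inl a}}.ncard : ℤ) - 1) *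
      (({b : Fin 3 | N.Indep {Sum.inr b}}.ncard : ℤ) - 1) := by
  set A := {a : Fin 3 | N.Indep {Sum.inl a}} with hA
  set B := {b : Fin 3 | N.Indep {Sum.inr b}} with hB
  have f0 : fnum N 0 = 1 := by
    have : {I | N.Indep I ∧ I.ncard = 0} = {∅} := by
      ext I
      simp only [mem_ofPred_eq, ncard_eq_zero (toFinite I), mem_singleton_iff]
      exact ⟨fun h => h.2, fun h => ⟨h ▸ N.empty_indep, h⟩⟩
    rw [fnum, this, ncard_singleton]
  have f1 : fnum N 1 = A.ncard + B.ncard := by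
    have : {I | N.Indep I ∧ I.ncard = 1} =
        (fun a => ({Sum.inl a} : Set (Fin 3 ⊕ Fin 3))) '' A ∪
        (fun b => ({Sum.inr b} : Set (Fin 3 ⊕ Fin 3))) '' B := by
      ext I
      simp only [mem_ofPred_eq, ncard_eq_one, mem_union, mem_image, hA, hB]
      constructor
      · rintro ⟨hI, a | b, rfl⟩
        · exact Or.inl ⟨a, hI, rfl⟩
        · exact Or.inr ⟨b, hI, rfl⟩
      · rintro (⟨a, ha, rfl⟩ | ⟨b, hb, rfl⟩)
        · exact ⟨ha, _, rfl⟩
        · exact ⟨hb, _, rfl⟩
    rw [fnum, this, ncard_union_eq, ncard_image_of_injective, ncard_image_of_injective]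
    · intro a b h; simpa using h
    · intro a b h; simpa using h
    · rw [disjoint_left]
      rintro _ ⟨a, -, rfl⟩ ⟨b, -, h⟩
      simp at h
  have hbase : ∀ a ∈ A, ∀ b ∈ B, N.Indep {Sum.inl a, Sum.inr b} := fun a ha b hb => by
    obtain ⟨B1, hB1, h1⟩ := (show N.Indep {Sum.inl a} from ha).exists_isBase_superset
    obtain ⟨B2, hB2, h2⟩ := (show N.Indep {Sum.inr b} from hb).exists_isBase_superset
    obtain ⟨a1, b1, rfl⟩ := (M0_base _).1 (hN _ hB1)
    obtain ⟨a2, b2, rfl⟩ := (M0_base _).1 (hN _ hB2)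
    have e1 : a = a1 := by simpa using h1
    have e2 : b = b2 := by simpa using h2
    subst e1 e2
    have hlt : ({Sum.inl a} : Set (Fin 3 ⊕ Fin 3)).encard <
        ({Sum.inl a2, Sum.inr b} : Set (Fin 3 ⊕ Fin 3)).encard := by
      rw [encard_singleton, encard_pair (by simp)]; decide
    obtain ⟨e, ⟨he1, he2⟩, hind⟩ := (show N.Indep {Sum.inl a} from ha).augment hB2.indep hlt
    rcases he1 with rfl | rfl
    · exfalso
      obtain ⟨B3, hB3, h3⟩ := hind.exists_isBase_superset
      obtain ⟨a3, b3, rfl⟩ := (M0_base _).1 (hN _ hB3)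
      have u1 := h3 (mem_insert _ _)
      have u2 := h3 (mem_insert_of_mem _ rfl)
      simp only [mem_insert_iff, Sum.inl.injEq, mem_singleton_iff, reduceCtorEq, or_false] at u1 u2
      exact he2 (by rw [u1, u2]; rfl)
    · rwa [pair_comm]
  have f2 : fnum N 2 = A.ncard * B.ncard := by
    have : {I | N.Indep I ∧ I.ncard = 2} =
        (fun p : Fin 3 × Fin 3 => ({Sum.inl p.1, Sum.inr p.2} : Set (Fin 3 ⊕ Fin 3))) ''
          (A ×ˢ B) := by
      ext I
      simp only [mem_ofPred_eq, mem_image, mem_prod]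
      constructor
      · rintro ⟨hI, hc⟩
        obtain ⟨B1, hB1, h1⟩ := hI.exists_isBase_superset
        obtain ⟨a, b, rfl⟩ := (M0_base _).1 (hN _ hB1)
        refine ⟨(a, b), ⟨hB1.indep.subset (by simp), hB1.indep.subset (by simp)⟩, ?_⟩
        exact (eq_of_subset_of_ncard_le h1 (by rw [hc, ncard_pair (by simp)])).symm
      · rintro ⟨⟨a, b⟩, ⟨ha, hb⟩, rfl⟩
        exact ⟨hbase a ha b hb, ncard_pair (by simp)⟩
    rw [fnum, this, ncard_image_of_injective, ncard_prod]
    rintro ⟨a, b⟩ ⟨c, d⟩ h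
    simp only at h
    have h1 : (Sum.inl a : Fin 3 ⊕ Fin 3) ∈ ({Sum.inl c, Sum.inr d} : Set _) :=
      h ▸ (mem_insert _ _)
    have h2 : (Sum.inr b : Fin 3 ⊕ Fin 3) ∈ ({Sum.inl c, Sum.inr d} : Set _) :=
      h ▸ (mem_insert_of_mem _ rfl)
    simp only [mem_insert_iff, Sum.inl.injEq, Sum.inr.injEq, mem_singleton_iff, reduceCtorEq,
      or_false, false_or] at h1 h2
    rw [h1, h2]
  simp only [hTop, Finset.sum_range_succ, Finset.range_zero, Finset.sum_empty, f0, f1, f2]
  push_cast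
  ring

theorem result : ∃ (α : Type) (_ : Finite α) (M : Matroid α) (d : ℕ), 1 ≤ d ∧ M.eRank = d ∧
    1 ≤ hTop M d ∧
    ∀ N : Matroid α, (∀ B, N.IsBase B → M.IsBase B) → hTop N d ≠ hTop M d - 1 := by
  have h4 : hTop M0 2 = 4 := by
    rw [hTop_eq M0 (fun _ h => h)]
    have e1 : {a : Fin 3 | M0.Indep {Sum.inl a}} = univ :=
      eq_univ_of_forall fun a => ((M0_base _).2 ⟨a, 0, rfl⟩).indep.subset (by simp)
    have e2 : {a : Fin 3 | M0.Indep {Sum.inr a}} = univ :=
      eq_univ_of_forall fun a => ((M0_base _).2 ⟨0, a, rfl⟩).indep.subset (by simp)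
    rw [e1, e2, ncard_univ]
    simp
  refine ⟨Fin 3 ⊕ Fin 3, inferInstance, M0, 2, by norm_num, ?_, by rw [h4]; norm_num,
    fun N hN => ?_⟩
  · rw [← ((M0_base _).2 ⟨0, 0, rfl⟩).encard_eq_eRank, encard_pair (by simp)]; rfl
  · rw [h4, hTop_eq N hN]
    have b1 : {a : Fin 3 | N.Indep {Sum.inl a}}.ncard ≤ 3 := by
      simpa using ncard_le_ncard (subset_univ {a : Fin 3 | N.Indep {Sum.inl a}})
    have b2 : {a : Fin 3 | N.Indep {Sum.inr a}}.ncard ≤ 3 := by
      simpa using ncard_le_ncard (subset_univ {a : Fin 3 | N.Indep {Sum.inr a}})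
    generalize {a : Fin 3 | N.Indep {Sum.inl a}}.ncard = x at *
    generalize {a : Fin 3 | N.Indep {Sum.inr a}}.ncard = y at *
    interval_cases x <;> interval_cases y <;> norm_num

end Pool.Agent.Results.MP_35fef3_co.Counter
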